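import Pool.Agent.Helper56_TMP.Chi
import Pool.Agent.Helper58_TMP.Trc

/-!
# TMP: module CHF, the character of a cusp form at a finite place
-/

open scoped BigOperators

namespace Pool.Agent.DEN.TMP.H56

open Pool.Agent.DEN Pool.Agent.DEN.TMP

/-- sums over orbits only depend on the orbits -/
theorem sum_orb {A B X : Type} [Group A] [Group B] [MulAction A X] [MulAction B X]
    (e : A ≃* B) (he : ∀ a (x : X), e a • x = a • x) (c : X → ℂ) :
    ∑ᶠ o : MulAction.orbitRel.Quotient A X,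
        c o.out / (Nat.card (MulAction.stabilizer A o.out) : ℂ) =
      ∑ᶠ o : MulAction.orbitRel.Quotient B X,
        c o.out / (Nat.card (MulAction.stabilizer B o.out) : ℂ) := by
  have hs : MulAction.orbitRel A X = MulAction.orbitRel B X := by
    ext x y
    simp only [MulAction.orbitRel_apply, MulAction.mem_orbit_iff]
    constructor
    · rintro ⟨a, ha⟩
      exact ⟨e a, by rw [he]; exact ha⟩
    · rintro ⟨b, hb⟩
      refine ⟨e.symm b, ?_⟩
      rw [← he, e.apply_symm_apply]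
      exact hb
  have hc : ∀ x : X, Nat.card (MulAction.stabilizer A x) = Nat.card (MulAction.stabilizer B x) := by
    intro x
    refine Nat.card_congr ⟨fun a => ⟨e a.1, ?_⟩, fun b => ⟨e.symm b.1, ?_⟩, ?_, ?_⟩
    · rw [MulAction.mem_stabilizer_iff, he]
      exact a.2
    · rw [MulAction.mem_stabilizer_iff, ← he, e.apply_symm_apply]
      exact b.2
    · intro a
      simp
    · intro b
      simp
  have h1 : ∀ o : MulAction.orbitRel.Quotient A X,
      c o.out / (Nat.card (MulAction.stabilizer A o.out) : ℂ) =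
      c o.out / (Nat.card (MulAction.stabilizer B o.out) : ℂ) := fun o => by rw [hc]
  rw [finsum_congr h1]
  have h2 : ∀ s t : Setoid X, s = t →
      ∑ᶠ o : Quotient s, c o.out / (Nat.card (MulAction.stabilizer B o.out) : ℂ) =
      ∑ᶠ o : Quotient t, c o.out / (Nat.card (MulAction.stabilizer B o.out) : ℂ) := by
    rintro s t rfl
    rfl
  exact h2 _ _ hs

/-- finiteness over orbits only depends on the orbits -/
theorem fin_orb {A B X : Type} [Group A] [Group B] [MulAction A X] [MulAction B X]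
    (e : A ≃* B) (he : ∀ a (x : X), e a • x = a • x) (p : X → Prop)
    (hf : {o : MulAction.orbitRel.Quotient B X | p o.out}.Finite) :
    {o : MulAction.orbitRel.Quotient A X | p o.out}.Finite := by
  have hs : MulAction.orbitRel A X = MulAction.orbitRel B X := by
    ext x y
    simp only [MulAction.orbitRel_apply, MulAction.mem_orbit_iff]
    constructor
    · rintro ⟨a, ha⟩
      exact ⟨e a, by rw [he]; exact ha⟩
    · rintro ⟨b, hb⟩
      refine ⟨e.symm b, ?_⟩
      rw [← he, e.apply_symm_apply]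
      exact hb
  have h2 : ∀ s t : Setoid X, s = t → {o : Quotient t | p o.out}.Finite →
      {o : Quotient s | p o.out}.Finite := by
    rintro s t rfl h
    exact h
  exact h2 _ _ hs hf

theorem fin_stab {A B X : Type} [Group A] [Group B] [MulAction A X] [MulAction B X]
    (e : A ≃* B) (he : ∀ a (x : X), e a • x = a • x) (x : X)
    (hB : Finite (MulAction.stabilizer B x)) : Finite (MulAction.stabilizer A x) := by
  refine Finite.of_injective (fun a : MulAction.stabilizer A x =>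
    (⟨e a.1, by rw [MulAction.mem_stabilizer_iff, he]; exact a.2⟩ :
      MulAction.stabilizer B x)) ?_
  intro a b hab
  apply Subtype.ext
  exact e.injective (Subtype.ext_iff.1 hab)

section
variable {r : ℕ} {C : Matrix (Fin r) (Fin r) ℤ} {K : Type} [Field K]

/-- the two descriptions of the congruence subgroup -/
def isoL {G : Type} [Group G] {A B : Subgroup G} (h1 : A ≤ B) : (A.subgroupOf B) ≃* A where
  toFun a := ⟨a.1.1, a.2⟩
  invFun a := ⟨⟨a.1, h1 a.2⟩, a.2⟩
  left_inv _ := rfl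
  right_inv _ := rfl
  map_mul' _ _ := rfl

theorem isoL_smul {G X : Type} [Group G] [MulAction G X] {A B : Subgroup G} (h1 : A ≤ B)
    (a : A.subgroupOf B) (x : X) : isoL h1 a • x = a • x := rfl

/-- the restriction of `φ` to the congruence subgroup -/
noncomputable def resm {K₂ : Type} [Field K₂] {P : Polynomial K} (N : Polynomial K)
    (φ : arith C K P →* grp C K₂) : cong C K P N →* grp C K₂ :=
  φ.comp (Subgroup.inclusion (fun _ hg => hg.1 : cong C K P N ≤ arith C K P))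

theorem resm_apply {K₂ : Type} [Field K₂] {P : Polynomial K} (N : Polynomial K)
    (φ : arith C K P →* grp C K₂) (g : cong C K P N) : resm N φ g = φ ⟨g.1, g.2.1⟩ := rfl

end

section chr
variable {G X G₂ : Type} [Group G] [Group G₂] [MulAction G X] {L : Subgroup G}
  {L₂ : Subgroup G₂} {ψ : G →* G₂}

theorem f_inv {f : X → ℂ} (hf : ∀ l ∈ L, ∀ x, f (l • x) = f x) {a b : G}
    (hab : (a : G ⧸ L) = (b : G ⧸ L)) (x : X) : f (a⁻¹ • x) = f (b⁻¹ • x) := by
  have h1 : a⁻¹ * b ∈ L := QuotientGroup.eq.1 hab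
  have h2 := hf _ h1 (b⁻¹ • x)
  rw [← h2, smul_smul]
  congr 2
  group

/-- transport of the eigenvalue equation to the quotient of the target -/
theorem eig_trans (h1 : ∀ g, ψ g ∈ L₂ ↔ g ∈ L) (h2 : ∀ h : G₂, ∃ g, ∃ l ∈ L₂, h = ψ g * l)
    {f : X → ℂ} (hf : ∀ l ∈ L, ∀ x, f (l • x) = f x) (x0 : X) {κ₂ : G₂ → ℂ}
    (hk : Hk L₂ κ₂) (hk1 : Hk L (κ₂ ∘ ψ)) {lam : ℂ}
    (hl : ∀ x, ∑ᶠ δ : G ⧸ L, κ₂ (ψ δ.out) * f (δ.out⁻¹ • x) = lam * f x) (x : G₂ ⧸ L₂) :
    ∑ᶠ y : G₂ ⧸ L₂, κ₂ (x.out⁻¹ * y.out) * f (((H58.eqv h1 h2).symm y).out⁻¹ • x0) =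
      lam * f (((H58.eqv h1 h2).symm x).out⁻¹ • x0) := by
  set E := H58.eqv h1 h2 with hE
  set x' := E.symm x with hx'
  rw [← hl, ← finsum_comp_equiv E, ← finsum_comp_equiv (MulAction.toPerm x'.out)]
  refine finsum_congr fun δ => ?_
  simp only [MulAction.toPerm_apply, Equiv.symm_apply_apply]
  have hz : (((x'.out • δ).out : G) : G ⧸ L) = ((x'.out * δ.out : G) : G ⧸ L) := by
    rw [outeq, smulout]
  congr 1
  · have e1 : ((x.out : G₂) : G₂ ⧸ L₂) = (ψ x'.out : G₂ ⧸ L₂) := by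
      have := H58.eqv_out h1 h2 x'
      rw [← hE, hx', Equiv.apply_symm_apply] at this
      exact this
    rw [linv hk.1 e1]
    have e2 : κ₂ ((ψ x'.out)⁻¹ * (E (x'.out • δ)).out) =
        κ₂ ((ψ x'.out)⁻¹ * ψ (x'.out • δ).out) := by
      apply rinv hk.1
      have h3 := H58.eqv_out h1 h2 (x'.out • δ)
      rw [← hE] at h3
      rw [QuotientGroup.eq] at h3 ⊢
      have h4 : ((ψ x'.out)⁻¹ * (E (x'.out • δ)).out)⁻¹ * ((ψ x'.out)⁻¹ * ψ (x'.out • δ).out) =
        ((E (x'.out • δ)).out)⁻¹ * ψ (x'.out • δ).out := by group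
      rw [h4]
      exact h3
    rw [e2, ← map_inv, ← map_mul]
    have e3 := rinv hk1.1 (a := x'.out⁻¹ * (x'.out • δ).out) (b := δ.out) (by
      rw [smulout, outeq, inv_smul_smul])
    exact e3
  · rw [f_inv hf hz, mul_inv_rev, mul_smul]

end chr

theorem chf (hHka : HkaStmt) (hKfin : KfinStmt) (hChr0 : Chr0Stmt) (hTrc : TrcStmt)
    (hAdj : AdjStmt) : ChfStmt := by
  classical
  intro r C hC K _ _ N hN P hP hPN f hf h1 heig K₂ _ _ φ hφ1 hφ2 hφ3 hφ4
  have hP0 : P ≠ 0 := hP.ne_zero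
  obtain ⟨-, hle, hcle, hcong, hfac, -⟩ := H22.hNrm r C hC K P N hP0 hN hPN
  have hψ1 : ∀ g, resm N φ g ∈ maxK C K₂ ↔ g ∈ (cong C K 1 N).subgroupOf (cong C K P N) := by
    intro g
    rw [resm_apply, hφ1]
    constructor
    · intro h
      exact hcong g.1 g.2 h
    · intro h
      exact h.1
  have hψ2 : ∀ h : grp C K₂, ∃ g, ∃ l ∈ maxK C K₂, h = resm N φ g * l := by
    intro h
    obtain ⟨g, l, hl, rfl⟩ := hφ2 h
    obtain ⟨γ, hγ, g0, hg0, hg⟩ := hfac g.1 g.2
    refine ⟨⟨γ, hγ⟩, φ ⟨g0, hle hg0⟩ * l, mul_mem ((hφ1 _).2 hg0) hl, ?_⟩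
    rw [← mul_assoc, resm_apply, ← map_mul]
    congr 2
    exact Subtype.ext hg
  have hTP := hTrc (grp C K₂) (arith C K P) (maxK C K₂)
    ((arith C K 1).subgroupOf (arith C K P)) φ hφ1 hφ2
  have hTN := hTrc (grp C K₂) (cong C K P N) (maxK C K₂)
    ((cong C K 1 N).subgroupOf (cong C K P N)) (resm N φ) hψ1 hψ2
  have hHF : ∀ (κ₂ : grp C K₂ → ℂ) (R : ℕ), HeckeInf κ₂ R → HeckeFin P (κ₂ ∘ φ) R := by
    intro κ₂ R h
    have hk : Hk (maxK C K₂) κ₂ := ⟨h.1, h.2.1⟩
    have hk' := hTP.2.1 κ₂ hk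
    refine ⟨hk'.1, hk'.2, ?_⟩
    intro g hg v hv
    have h3 := h.2.2 (φ g) hg
    refine ⟨hφ3 R g (fun w hw => (h3 w hw).1) v hv, ?_⟩
    exact hφ3 R g⁻¹ (fun w hw => by rw [map_inv]; exact (h3 w hw).2) v hv
  have hex : ∀ κ₂ : grp C K₂ → ℂ, Hk (maxK C K₂) κ₂ → ∃ l, EigenFin P N (κ₂ ∘ φ) l f := by
    intro κ₂ h
    obtain ⟨R, hR⟩ := hk_inf hC h
    exact heig _ R (hHF κ₂ R hR)
  set lam : (grp C K₂ → ℂ) → ℂ := fun κ₂ =>
    if h : ∃ l, EigenFin P N (κ₂ ∘ φ) l f then h.choose else 0 with hlam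
  have hl : ∀ κ₂, Hk (maxK C K₂) κ₂ → EigenFin P N (κ₂ ∘ φ) (lam κ₂) f := by
    intro κ h
    have h2 := hex κ h
    simp only [hlam]
    rw [dif_pos h2]
    exact h2.choose_spec
  have hl' : ∀ κ₂, Hk (maxK C K₂) κ₂ → ∀ x : XX C K,
      ∑ᶠ δ : (cong C K P N) ⧸ (cong C K 1 N).subgroupOf (cong C K P N),
        κ₂ (resm N φ δ.out) * f (δ.out⁻¹ • x) = lam κ₂ * f x := by
    intro κ₂ h x
    rw [← hl κ₂ h x]
    refine finsum_congr fun δ => ?_
    rfl
  obtain ⟨x0, hx0⟩ := ne_of_petersson h1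
  obtain ⟨hfin1, hfin2, -⟩ := H22.hFin r C hC K
  have hfsp := H22.hFsp r C hC K N hN f hf
  have hka := hHka (grp C K₂) (maxK C K₂)
  have hinv : ∀ l ∈ (cong C K 1 N).subgroupOf (cong C K P N), ∀ x : XX C K, f (l • x) = f x := by
    intro l hl x
    exact hf.1 l.1 hl x
  have hcha : IsChr (maxK C K₂) lam := by
    refine hChr0 (grp C K₂) (maxK C K₂)
      (fun y => f (((H58.eqv hψ1 hψ2).symm y).out⁻¹ • x0)) ?_ lam ?_
    · refine ⟨H58.eqv hψ1 hψ2 ((1 : cong C K P N) : _), ?_⟩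
      simp only [Equiv.symm_apply_apply]
      rw [f_inv hinv (outeq _), inv_one, one_smul]
      exact hx0
    · intro κ₂ hk x
      exact eig_trans hψ1 hψ2 hinv x0 hk (hTN.2.1 κ₂ hk) (hl' κ₂ hk) x
  have hpet : ∑ᶠ o : MulAction.orbitRel.Quotient ((cong C K 1 N).subgroupOf (cong C K P N))
      (XX C K), (starRingEnd ℂ) (f o.out) * f o.out /
        (Nat.card (MulAction.stabilizer ((cong C K 1 N).subgroupOf (cong C K P N)) o.out) : ℂ) =
      1 := by
    rw [← h1, petersson]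
    exact sum_orb (isoL hcle) (isoL_smul hcle) (fun x => (starRingEnd ℂ) (f x) * f x)
  have hsup : {o : MulAction.orbitRel.Quotient ((cong C K 1 N).subgroupOf (cong C K P N))
      (XX C K) | f o.out ≠ 0}.Finite :=
    fin_orb (isoL hcle) (isoL_smul hcle) (fun x => f x ≠ 0) hfsp
  have hstab : ∀ x : XX C K,
      Finite (MulAction.stabilizer ((cong C K 1 N).subgroupOf (cong C K P N)) x) := by
    intro x
    exact fin_stab (isoL hcle) (isoL_smul hcle) x (hfin2 N x)
  refine ⟨lam, hcha, ?_, ?_, ?_⟩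
  · intro κ₂ h
    have hs : Hk (maxK C K₂) (sta κ₂) := hka.2.2.2.1 (hKfin r C hC K₂) κ₂ h
    have hs1 := hTN.2.1 (sta κ₂) hs
    have hst := hTN.2.2.2.1 κ₂
    have hA := hAdj (cong C K P N) (XX C K) ((cong C K 1 N).subgroupOf (cong C K P N)) hstab
      f f hinv hinv hsup hsup (κ₂ ∘ resm N φ) (hTN.2.1 κ₂ h) (by rw [hst]; exact hs1)
    rw [hst] at hA
    have e1 : ∀ o : MulAction.orbitRel.Quotient ((cong C K 1 N).subgroupOf (cong C K P N))
        (XX C K), (starRingEnd ℂ) (∑ᶠ δ : (cong C K P N) ⧸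
          (cong C K 1 N).subgroupOf (cong C K P N),
          (κ₂ ∘ resm N φ) δ.out * f (δ.out⁻¹ • o.out)) * f o.out /
          (Nat.card (MulAction.stabilizer ((cong C K 1 N).subgroupOf (cong C K P N))
            o.out) : ℂ) =
        (starRingEnd ℂ) (lam κ₂) * ((starRingEnd ℂ) (f o.out) * f o.out /
          (Nat.card (MulAction.stabilizer ((cong C K 1 N).subgroupOf (cong C K P N))
            o.out) : ℂ)) := by
      intro o
      have e2 := hl' κ₂ h o.out
      simp only [Function.comp_apply]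
      rw [e2, map_mul]
      ring
    have e3 : ∀ o : MulAction.orbitRel.Quotient ((cong C K 1 N).subgroupOf (cong C K P N))
        (XX C K), (starRingEnd ℂ) (f o.out) * (∑ᶠ δ : (cong C K P N) ⧸
          (cong C K 1 N).subgroupOf (cong C K P N),
          (sta κ₂ ∘ resm N φ) δ.out * f (δ.out⁻¹ • o.out)) /
          (Nat.card (MulAction.stabilizer ((cong C K 1 N).subgroupOf (cong C K P N))
            o.out) : ℂ) =
        lam (sta κ₂) * ((starRingEnd ℂ) (f o.out) * f o.out /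
          (Nat.card (MulAction.stabilizer ((cong C K 1 N).subgroupOf (cong C K P N))
            o.out) : ℂ)) := by
      intro o
      have e2 := hl' (sta κ₂) hs o.out
      simp only [Function.comp_apply]
      rw [e2]
      ring
    rw [finsum_congr e1, finsum_congr e3, ← mul_finsum, ← mul_finsum, hpet, mul_one,
      mul_one] at hA
    exact hA.symm
  · intro κ₂ R hR
    exact ⟨hHF κ₂ R hR, hl κ₂ ⟨hR.1, hR.2.1⟩⟩
  · intro htmp κ R l τ hτ hK hE hn
    obtain ⟨κ₂, hk, rfl⟩ := hφ4 κ R hK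
    have e : l = lam κ₂ := by
      apply mul_right_cancel₀ hx0
      rw [← hE x0, ← hl κ₂ hk x0]
    rw [e]
    exact htmp κ₂ τ hτ hk ((hTP.2.2.2.2.2.2.1 κ₂ hk τ).1 hn)

end Pool.Agent.DEN.TMP.H56
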