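import Pool.Agent.Helper2_TMP.StG
import Pool.Agent.Helper22_DEN.Asm

/-!
# TMP: module CHI, the character of a cusp form at infinity
-/

open scoped BigOperators

namespace Pool.Agent.DEN.TMP.H56

open Pool.Agent.DEN Pool.Agent.DEN.TMP

section gen
variable {H : Type} [Group H] {L : Subgroup H} {κ : H → ℂ}

theorem rinv (h : ∀ k ∈ L, ∀ g, κ (k * g) = κ g ∧ κ (g * k) = κ g) {a b : H}
    (hab : (a : H ⧸ L) = (b : H ⧸ L)) : κ a = κ b := by
  have h1 : a⁻¹ * b ∈ L := QuotientGroup.eq.1 hab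
  have h2 := (h _ h1 a).2
  rw [mul_inv_cancel_left] at h2
  exact h2.symm

theorem linv (h : ∀ k ∈ L, ∀ g, κ (k * g) = κ g ∧ κ (g * k) = κ g) {a b : H}
    (hab : (a : H ⧸ L) = (b : H ⧸ L)) (g : H) : κ (a⁻¹ * g) = κ (b⁻¹ * g) := by
  have h1 : a⁻¹ * b ∈ L := QuotientGroup.eq.1 hab
  have h2 := (h _ h1 (b⁻¹ * g)).1
  rw [← h2]
  congr 1
  group

theorem outeq (x : H ⧸ L) : ((x.out : H) : H ⧸ L) = x := QuotientGroup.out_eq' x

theorem smulout (g : H) (x : H ⧸ L) : ((g * x.out : H) : H ⧸ L) = g • x := by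
  conv_rhs => rw [← outeq x]
  rfl

/-- the kernel `κ (g⁻¹ y)` has finite support -/
theorem kfin (h : Hk L κ) (g : H) : {y : H ⧸ L | κ (g⁻¹ * y.out) ≠ 0}.Finite := by
  have h1 : {y : H ⧸ L | κ (g⁻¹ * y.out) ≠ 0} = (fun y : H ⧸ L => g⁻¹ • y) ⁻¹' {y | κ y.out ≠ 0} := by
    ext y
    simp only [Set.mem_ofPred_eq, Set.mem_preimage]
    rw [rinv h.1 (a := g⁻¹ * y.out) (b := (g⁻¹ • y).out)]
    rw [smulout, outeq]
  rw [h1]
  exact h.2.preimage ((MulAction.injective g⁻¹).injOn)

end gen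

section
variable {r : ℕ} {C : Matrix (Fin r) (Fin r) ℤ} {K : Type} [Field K]

/-- A Hecke function is bounded. -/
theorem hk_inf (hC : SimplyLaced C) {κ : grp C K → ℂ} (h : Hk (maxK C K) κ) :
    ∃ R, HeckeInf κ R := by
  obtain ⟨hb1, hb2, hb3⟩ := H22.hBdg r C hC K
  choose m hm using hb1
  obtain ⟨R, hR⟩ := (h.2.image fun y => m y.out).bddAbove
  refine ⟨R, h.1, h.2, ?_⟩
  intro g hg v hv
  have hF := H22.hF1 K
  obtain ⟨-, -, -, -, hmono, -⟩ := hF
  set y : XX C K := (g : XX C K) with hy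
  have e1 : κ y.out = κ g := rinv h.1 (outeq y)
  have hyR : m y.out ≤ R := hR ⟨y, by rw [Set.mem_ofPred_eq, e1]; exact hg, rfl⟩
  have hk : y.out⁻¹ * g ∈ maxK C K := QuotientGroup.eq.1 (outeq y)
  have hk' := (hb3 _).1 hk
  have e2 : g = y.out * (y.out⁻¹ * g) := by group
  have e3 : g⁻¹ = (y.out⁻¹ * g)⁻¹ * y.out⁻¹ := by group
  have b1 : bnd ((m y.out : ℕ) + 0) g := by
    rw [e2]
    exact hb2 _ _ _ _ (hm y.out).1 hk'.1
  have b2 : bnd (0 + (m y.out : ℕ)) g⁻¹ := by
    rw [e3]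
    exact hb2 _ _ _ _ hk'.2 (hm y.out).2
  have up : ∀ a : FF K, a ∈ Bd K (m y.out) → a ∈ Bd K R := fun a ha =>
    hmono _ _ a (by exact_mod_cast hyR) ha
  rw [add_zero] at b1
  rw [zero_add] at b2
  exact ⟨⟨fun i => up _ ((b1 v hv).1 i), fun γ => up _ ((b1 v hv).2 γ)⟩,
    ⟨fun i => up _ ((b2 v hv).1 i), fun γ => up _ ((b2 v hv).2 γ)⟩⟩

theorem ne_of_petersson {N : Polynomial K} {f : XX C K → ℂ} (h1 : petersson N f f = 1) :
    ∃ x, f x ≠ 0 := by
  by_contra hx
  push Not at hx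
  have : petersson N f f = 0 := by
    rw [petersson]
    have e : ∀ o : MulAction.orbitRel.Quotient (cong C K 1 N) (XX C K),
        (starRingEnd ℂ) (f o.out) * f o.out /
          Nat.card (MulAction.stabilizer (cong C K 1 N) o.out) = 0 := by
      intro o
      rw [hx]
      simp
    rw [finsum_congr e, finsum_zero]
  rw [h1] at this
  exact one_ne_zero this

end

theorem chi (hHka : HkaStmt) (hKfin : KfinStmt) (hChr0 : Chr0Stmt) (hMtp : MtpStmt) :
    ChiStmt := by
  classical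
  intro r C hC K _ _ N hN f hf h1 heig
  have hbd : ∀ κ : grp C K → ℂ, Hk (maxK C K) κ → ∃ R, HeckeInf κ R := fun κ h => hk_inf hC h
  have hex : ∀ κ : grp C K → ℂ, Hk (maxK C K) κ → ∃ l, EigenInf κ l f := by
    intro κ h
    obtain ⟨R, hR⟩ := hbd κ h
    exact heig κ R hR
  set lam : (grp C K → ℂ) → ℂ := fun κ =>
    if h : ∃ l, EigenInf κ l f then h.choose else 0 with hlam
  have hl : ∀ κ, Hk (maxK C K) κ → EigenInf κ (lam κ) f := by
    intro κ h
    have h2 := hex κ h
    simp only [hlam]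
    rw [dif_pos h2]
    exact h2.choose_spec
  have hne := ne_of_petersson h1
  obtain ⟨hfin1, hfin2, -⟩ := H22.hFin r C hC K
  have hfsp := H22.hFsp r C hC K N hN f hf
  have hka := hHka (grp C K) (maxK C K)
  have hcha : IsChr (maxK C K) lam := hChr0 _ _ f hne lam hl
  refine ⟨lam, hcha, ?_, hbd, hl, ?_⟩
  · intro κ h
    have hs : Hk (maxK C K) (sta κ) := hka.2.2.2.1 (hKfin r C hC K) κ h
    have hM := hMtp (cong C K 1 N) (XX C K) (hfin2 N)
      (fun x y => (starRingEnd ℂ) (f x) * κ (x.out⁻¹ * y.out) * f y) ?_ ?_ ?_ ?_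
    · have e1 : ∀ o : MulAction.orbitRel.Quotient (cong C K 1 N) (XX C K),
          (∑ᶠ y : XX C K, (starRingEnd ℂ) (f o.out) * κ (o.out.out⁻¹ * y.out) * f y) /
            (Nat.card (MulAction.stabilizer (cong C K 1 N) o.out) : ℂ) =
          lam κ * ((starRingEnd ℂ) (f o.out) * f o.out /
            (Nat.card (MulAction.stabilizer (cong C K 1 N) o.out) : ℂ)) := by
        intro o
        have e2 : ∑ᶠ y : XX C K, (starRingEnd ℂ) (f o.out) * κ (o.out.out⁻¹ * y.out) * f y =
            (starRingEnd ℂ) (f o.out) * (lam κ * f o.out) := by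
          rw [← hl κ h o.out, mul_finsum]
          exact finsum_congr fun y => by ring
        rw [e2]
        ring
      have e3 : ∀ o : MulAction.orbitRel.Quotient (cong C K 1 N) (XX C K),
          (∑ᶠ x : XX C K, (starRingEnd ℂ) (f x) * κ (x.out⁻¹ * o.out.out) * f o.out) /
            (Nat.card (MulAction.stabilizer (cong C K 1 N) o.out) : ℂ) =
          (starRingEnd ℂ) (lam (sta κ)) * ((starRingEnd ℂ) (f o.out) * f o.out /
            (Nat.card (MulAction.stabilizer (cong C K 1 N) o.out) : ℂ)) := by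
        intro o
        have e4 : ∑ᶠ x : XX C K, (starRingEnd ℂ) (f x) * κ (x.out⁻¹ * o.out.out) * f o.out =
            (starRingEnd ℂ) (lam (sta κ) * f o.out) * f o.out := by
          rw [← hl (sta κ) hs o.out, ← finsum_mul]
          congr 1
          have e5 : (starRingEnd ℂ) (∑ᶠ y : XX C K, sta κ (o.out.out⁻¹ * y.out) * f y) =
              ∑ᶠ y : XX C K, (starRingEnd ℂ) (sta κ (o.out.out⁻¹ * y.out) * f y) := by
            apply AddMonoidHom.map_finsum (starRingEnd ℂ).toAddMonoidHom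
            exact (kfin hs o.out.out).subset fun y hy => left_ne_zero_of_mul hy
          rw [e5]
          refine finsum_congr fun y => ?_
          simp only [sta, map_mul, Complex.conj_conj, mul_inv_rev, inv_inv]
          ring
        rw [e4, map_mul]
        ring
      rw [finsum_congr e1, finsum_congr e3, ← mul_finsum, ← mul_finsum] at hM
      have e6 : ∑ᶠ o : MulAction.orbitRel.Quotient (cong C K 1 N) (XX C K),
          ((starRingEnd ℂ) (f o.out) * f o.out /
            (Nat.card (MulAction.stabilizer (cong C K 1 N) o.out) : ℂ)) = 1 := h1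
      rw [e6, mul_one, mul_one] at hM
      rw [hM, Complex.conj_conj]
    · intro γ x y
      rw [show γ • x = (γ : grp C K) • x from rfl, show γ • y = (γ : grp C K) • y from rfl,
        hf.1 γ.1 γ.2 x, hf.1 γ.1 γ.2 y]
      congr 2
      rw [linv h.1 (a := (γ.1 • x).out) (b := γ.1 * x.out) (by rw [smulout, outeq])]
      rw [rinv h.1 (a := (γ.1 * x.out)⁻¹ * (γ.1 • y).out) (b := x.out⁻¹ * y.out)]
      have e7 : ((γ.1 * x.out)⁻¹ * (γ.1 • y).out : grp C K) =
          x.out⁻¹ * γ.1⁻¹ * (γ.1 • y).out := by group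
      rw [e7, smulout, smulout, mul_smul, inv_smul_smul]
    · intro x
      exact (kfin h x.out).subset fun y hy => right_ne_zero_of_mul (left_ne_zero_of_mul hy)
    · intro y
      refine (kfin hs y.out).subset fun x hx => ?_
      have h2 : κ (x.out⁻¹ * y.out) ≠ 0 := right_ne_zero_of_mul (left_ne_zero_of_mul hx)
      simp only [Set.mem_ofPred_eq, sta, mul_inv_rev, inv_inv]
      simpa using h2
    · refine hfsp.subset ?_
      rintro o ⟨y, hy⟩
      have h2 := left_ne_zero_of_mul (left_ne_zero_of_mul hy)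
      simp only [Set.mem_ofPred_eq]
      intro h3
      rw [h3] at h2
      simp at h2
  · intro htmp κ R l τ hτ hK hE hn
    have hk : Hk (maxK C K) κ := ⟨hK.1, hK.2.1⟩
    obtain ⟨x, hx⟩ := hne
    have e : l = lam κ := by
      apply mul_right_cancel₀ hx
      rw [← hE x, ← hl κ hk x]
    rw [e]
    exact htmp κ τ hτ hk hn

end Pool.Agent.DEN.TMP.H56
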